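import Pool.Agent.UDG.Stmt

/-!
# Periodic `k`-planar unit distance graphs in the Moser lattice

`ω = e^(iπ/3)`, `η = (5 + √11 i)/6`. Vectors `m1 + m2 ω + k1 η + k2 ωη` have coordinates
`X / 12`, `√3 Y / 36` with `X, Y ∈ ℤ[√33]`.
-/

set_option autoImplicit false

namespace Pool.Agent.UDL

open Pool.Agent.UDG

/-- vectors of the lattice `ℤ[ω] + η ℤ[ω]` -/
abbrev Z4 := ℤ × ℤ × ℤ × ℤ

/-- elements `a + b √33` -/
abbrev Q := ℤ × ℤ

def q0 (a b c d : ℤ) : Z4 := (a, b, c, d)

def ad (p q : Z4) : Z4 := (p.1 + q.1, p.2.1 + q.2.1, p.2.2.1 + q.2.2.1, p.2.2.2 + q.2.2.2)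

def sb (p q : Z4) : Z4 := (p.1 - q.1, p.2.1 - q.2.1, p.2.2.1 - q.2.2.1, p.2.2.2 - q.2.2.2)

def sm (s : ℤ) (p : Z4) : Z4 := (s * p.1, s * p.2.1, s * p.2.2.1, s * p.2.2.2)

def cX (p : Z4) : Q := (12 * p.1 + 6 * p.2.1 + 10 * p.2.2.1 + 5 * p.2.2.2, -p.2.2.2)

def cY (p : Z4) : Q := (18 * p.2.1 + 15 * p.2.2.2, 2 * p.2.2.1 + p.2.2.2)

def mul (x y : Q) : Q := (x.1 * y.1 + 33 * (x.2 * y.2), x.1 * y.2 + x.2 * y.1)

def add (x y : Q) : Q := (x.1 + y.1, x.2 + y.2)

def neg (x : Q) : Q := (-x.1, -x.2)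

/-- `0 ≤ x` -/
def nn (x : Q) : Bool :=
  (decide (0 ≤ x.1) && decide (0 ≤ x.2)) ||
  (decide (0 ≤ x.1) && decide (33 * (x.2 * x.2) ≤ x.1 * x.1)) ||
  (decide (0 ≤ x.2) && decide (x.1 * x.1 ≤ 33 * (x.2 * x.2)))

/-- `0 < x` -/
def ps (x : Q) : Bool :=
  (decide (0 < x.1) && decide (0 ≤ x.2)) ||
  (decide (0 ≤ x.1) && decide (0 < x.2)) ||
  (decide (0 < x.1) && decide (33 * (x.2 * x.2) < x.1 * x.1)) ||
  (decide (0 < x.2) && decide (x.1 * x.1 < 33 * (x.2 * x.2)))

noncomputable def val (x : Q) : ℝ := (x.1 : ℝ) + (x.2 : ℝ) * Real.sqrt 33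

theorem s33 : Real.sqrt 33 * Real.sqrt 33 = 33 := Real.mul_self_sqrt (by norm_num)

theorem s33_pos : 0 < Real.sqrt 33 := Real.sqrt_pos.2 (by norm_num)

theorem val_add (x y : Q) : val (add x y) = val x + val y := by
  unfold val add; push_cast; ring

theorem val_neg (x : Q) : val (neg x) = -val x := by
  unfold val neg; push_cast; ring

theorem val_mul (x y : Q) : val (mul x y) = val x * val y := by
  unfold val mul; push_cast
  linear_combination (-(x.2 : ℝ) * y.2) * s33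

theorem nn_val {x : Q} (h : nn x = true) : 0 ≤ val x := by
  unfold nn at h
  simp only [Bool.or_eq_true, Bool.and_eq_true, decide_eq_true_eq] at h
  unfold val
  rcases h with (⟨h1, h2⟩ | ⟨h1, h2⟩) | ⟨h1, h2⟩
  · have h1' : (0 : ℝ) ≤ x.1 := by exact_mod_cast h1
    have h2' : (0 : ℝ) ≤ x.2 := by exact_mod_cast h2
    have := s33_pos
    positivity
  · have h1' : (0 : ℝ) ≤ x.1 := by exact_mod_cast h1
    have h2' : 33 * ((x.2 : ℝ) * x.2) ≤ x.1 * x.1 := by exact_mod_cast h2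
    have h3 : (x.2 * Real.sqrt 33) ^ 2 ≤ (x.1 : ℝ) ^ 2 := by
      rw [mul_pow, Real.sq_sqrt (by norm_num)]
      nlinarith
    have h4 := abs_le_of_sq_le_sq' h3 h1'
    linarith [h4.1]
  · have h1' : (0 : ℝ) ≤ x.2 := by exact_mod_cast h1
    have h2' : (x.1 : ℝ) * x.1 ≤ 33 * ((x.2 : ℝ) * x.2) := by exact_mod_cast h2
    have h3 : (x.1 : ℝ) ^ 2 ≤ (x.2 * Real.sqrt 33) ^ 2 := by
      rw [mul_pow, Real.sq_sqrt (by norm_num)]
      nlinarith
    have h4 := abs_le_of_sq_le_sq' h3 (mul_nonneg h1' s33_pos.le)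
    linarith [h4.1]

theorem ps_val {x : Q} (h : ps x = true) : 0 < val x := by
  unfold ps at h
  simp only [Bool.or_eq_true, Bool.and_eq_true, decide_eq_true_eq] at h
  unfold val
  rcases h with ((⟨h1, h2⟩ | ⟨h1, h2⟩) | ⟨h1, h2⟩) | ⟨h1, h2⟩
  · have h1' : (0 : ℝ) < x.1 := by exact_mod_cast h1
    have h2' : (0 : ℝ) ≤ x.2 := by exact_mod_cast h2
    have := s33_pos
    positivity
  · have h1' : (0 : ℝ) ≤ x.1 := by exact_mod_cast h1
    have h2' : (0 : ℝ) < x.2 := by exact_mod_cast h2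
    have := s33_pos
    positivity
  · have h1' : (0 : ℝ) < x.1 := by exact_mod_cast h1
    have h2' : 33 * ((x.2 : ℝ) * x.2) < x.1 * x.1 := by exact_mod_cast h2
    have h3 : (x.2 * Real.sqrt 33) ^ 2 < (x.1 : ℝ) ^ 2 := by
      rw [mul_pow, Real.sq_sqrt (by norm_num)]
      nlinarith
    have h4 := abs_lt_of_sq_lt_sq' h3 h1'.le
    linarith [h4.1]
  · have h1' : (0 : ℝ) < x.2 := by exact_mod_cast h1
    have h2' : (x.1 : ℝ) * x.1 < 33 * ((x.2 : ℝ) * x.2) := by exact_mod_cast h2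
    have h3 : (x.1 : ℝ) ^ 2 < (x.2 * Real.sqrt 33) ^ 2 := by
      rw [mul_pow, Real.sq_sqrt (by norm_num)]
      nlinarith
    have h4 := abs_lt_of_sq_lt_sq' h3 (mul_nonneg h1'.le s33_pos.le)
    linarith [h4.1]

/-- the point with the given lattice coordinates -/
noncomputable def pt (p : Z4) : ℝ × ℝ :=
  (val (cX p) / 12, Real.sqrt 3 * val (cY p) / 36)

theorem cX_ad (p q : Z4) : val (cX (ad p q)) = val (cX p) + val (cX q) := by
  unfold val cX ad; push_cast; ring

theorem cY_ad (p q : Z4) : val (cY (ad p q)) = val (cY p) + val (cY q) := by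
  unfold val cY ad; push_cast; ring

theorem cX_sb (p q : Z4) : val (cX (sb p q)) = val (cX p) - val (cX q) := by
  unfold val cX sb; push_cast; ring

theorem cY_sb (p q : Z4) : val (cY (sb p q)) = val (cY p) - val (cY q) := by
  unfold val cY sb; push_cast; ring

theorem cX_sm (s : ℤ) (p : Z4) : val (cX (sm s p)) = s * val (cX p) := by
  unfold val cX sm; push_cast; ring

theorem cY_sm (s : ℤ) (p : Z4) : val (cY (sm s p)) = s * val (cY p) := by
  unfold val cY sm; push_cast; ring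

/-- a linear functional `α X + β Y` -/
def ph (α β : Q) (d : Z4) : Q := add (mul α (cX d)) (mul β (cY d))

/-- the functional on the plane -/
noncomputable def fn (α β : Q) (z : ℝ × ℝ) : ℝ :=
  val α * (12 * z.1) + val β * (36 * z.2 / Real.sqrt 3)

theorem s3_ne : Real.sqrt 3 ≠ 0 := (Real.sqrt_pos.2 (by norm_num)).ne'

theorem fn_pt (α β : Q) (p : Z4) : fn α β (pt p) = val (ph α β p) := by
  unfold fn pt ph
  rw [val_add, val_mul, val_mul]
  have := s3_ne
  field_simp

theorem fn_add (α β : Q) (z w : ℝ × ℝ) : fn α β (z + w) = fn α β z + fn α β w := by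
  unfold fn
  rw [Prod.fst_add, Prod.snd_add]
  ring

theorem fn_smul (α β : Q) (c : ℝ) (z : ℝ × ℝ) : fn α β (c • z) = c * fn α β z := by
  unfold fn
  rw [Prod.smul_fst, Prod.smul_snd, smul_eq_mul, smul_eq_mul]
  ring

theorem ph_ad (α β : Q) (p q : Z4) : val (ph α β (ad p q)) = val (ph α β p) + val (ph α β q) := by
  unfold ph
  rw [val_add, val_add, val_add, val_mul, val_mul, val_mul, val_mul, val_mul, val_mul, cX_ad, cY_ad]
  ring

theorem ph_sb (α β : Q) (p q : Z4) : val (ph α β (sb p q)) = val (ph α β p) - val (ph α β q) := by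
  unfold ph
  rw [val_add, val_add, val_add, val_mul, val_mul, val_mul, val_mul, val_mul, val_mul, cX_sb, cY_sb]
  ring

theorem ph_sm (α β : Q) (s : ℤ) (p : Z4) : val (ph α β (sm s p)) = s * val (ph α β p) := by
  unfold ph
  rw [val_add, val_add, val_mul, val_mul, val_mul, val_mul, cX_sm, cY_sm]
  ring

/-- separation of open segments by a functional -/
theorem sep_core (f : ℝ × ℝ → ℝ) (hadd : ∀ z w, f (z + w) = f z + f w)
    (hsm : ∀ (c : ℝ) z, f (c • z) = c * f z) {P Q R S : ℝ × ℝ}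
    (h1 : 0 ≤ f R - f P) (h2 : 0 ≤ f S - f P) (h3 : 0 ≤ f R - f Q) (h4 : 0 ≤ f S - f Q)
    (h5 : 0 < (f R - f P) + (f S - f P) + (f R - f Q) + (f S - f Q))
    {z : ℝ × ℝ} (hz : z ∈ openSegment ℝ P Q) (hz' : z ∈ openSegment ℝ R S) : False := by
  obtain ⟨a, b, ha, hb, hab, rfl⟩ := hz
  obtain ⟨c, d, hc, hd, hcd, h⟩ := hz'
  have e := congrArg f h
  rw [hadd, hadd, hsm, hsm, hsm, hsm] at e
  have e1 : a * c * (f R - f P) + a * d * (f S - f P) + b * c * (f R - f Q)
      + b * d * (f S - f Q) = 0 := by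
    have hb' : b = 1 - a := by linarith
    have hd' : d = 1 - c := by linarith
    subst hb' hd'
    linear_combination e
  have i1 : 0 ≤ a * c * (f R - f P) := mul_nonneg (mul_pos ha hc).le h1
  have i2 : 0 ≤ a * d * (f S - f P) := mul_nonneg (mul_pos ha hd).le h2
  have i3 : 0 ≤ b * c * (f R - f Q) := mul_nonneg (mul_pos hb hc).le h3
  have i4 : 0 ≤ b * d * (f S - f Q) := mul_nonneg (mul_pos hb hd).le h4
  have j1 : f R - f P = 0 := by
    have : a * c * (f R - f P) = 0 := by linarith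
    rcases mul_eq_zero.1 this with h | h
    · exact absurd h (mul_pos ha hc).ne'
    · exact h
  have j2 : f S - f P = 0 := by
    have : a * d * (f S - f P) = 0 := by linarith
    rcases mul_eq_zero.1 this with h | h
    · exact absurd h (mul_pos ha hd).ne'
    · exact h
  have j3 : f R - f Q = 0 := by
    have : b * c * (f R - f Q) = 0 := by linarith
    rcases mul_eq_zero.1 this with h | h
    · exact absurd h (mul_pos hb hc).ne'
    · exact h
  have j4 : f S - f Q = 0 := by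
    have : b * d * (f S - f Q) = 0 := by linarith
    rcases mul_eq_zero.1 this with h | h
    · exact absurd h (mul_pos hb hd).ne'
    · exact h
  rw [j1, j2, j3, j4] at h5
  simp at h5

/-- the test that the functional `(α, β)` separates `P Q` from `R S` -/
def sf (α β : Q) (P Q R S : Z4) : Bool :=
  let a := ph α β (sb R P)
  let b := ph α β (sb S P)
  let c := ph α β (sb R Q)
  let d := ph α β (sb S Q)
  nn a && nn b && nn c && nn d && ps (add (add (add a b) c) d)

theorem sf_spec {α β : Q} {P Q R S : Z4} (h : sf α β P Q R S = true) (w : ℝ × ℝ)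
    {z : ℝ × ℝ} (hz : z ∈ openSegment ℝ (pt P + w) (pt Q + w))
    (hz' : z ∈ openSegment ℝ (pt R + w) (pt S + w)) : False := by
  unfold sf at h
  simp only [Bool.and_eq_true] at h
  obtain ⟨⟨⟨⟨h1, h2⟩, h3⟩, h4⟩, h5⟩ := h
  have k1 := nn_val h1
  have k2 := nn_val h2
  have k3 := nn_val h3
  have k4 := nn_val h4
  have k5 := ps_val h5
  rw [val_add, val_add, val_add] at k5
  rw [ph_sb] at k1 k2 k3 k4
  rw [ph_sb, ph_sb, ph_sb, ph_sb] at k5
  refine sep_core (fn α β) (fn_add α β) (fn_smul α β) (P := pt P + w) (Q := pt Q + w)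
    (R := pt R + w) (S := pt S + w) ?_ ?_ ?_ ?_ ?_ hz hz'
  · rw [fn_add, fn_add, fn_pt, fn_pt]; linarith
  · rw [fn_add, fn_add, fn_pt, fn_pt]; linarith
  · rw [fn_add, fn_add, fn_pt, fn_pt]; linarith
  · rw [fn_add, fn_add, fn_pt, fn_pt]; linarith
  · simp only [fn_add, fn_pt]; linarith

/-- the segments `P Q` and `R S` are separated -/
def sep (P Q R S : Z4) : Bool :=
  let e := sb Q P
  let f := sb S R
  let a := cY e
  let b := neg (cX e)
  let c := cY f
  let d := neg (cX f)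
  sf a b P Q R S || sf (neg a) (neg b) P Q R S || sf c d P Q R S || sf (neg c) (neg d) P Q R S ||
  sf (add (add (cX e) (cX e)) (cX e)) (cY e) P Q R S ||
  sf (neg (add (add (cX e) (cX e)) (cX e))) (neg (cY e)) P Q R S

theorem sep_spec {P Q R S : Z4} (h : sep P Q R S = true) (w : ℝ × ℝ)
    {z : ℝ × ℝ} (hz : z ∈ openSegment ℝ (pt P + w) (pt Q + w))
    (hz' : z ∈ openSegment ℝ (pt R + w) (pt S + w)) : False := by
  unfold sep at h
  simp only [Bool.or_eq_true] at h
  rcases h with ((((h | h) | h) | h) | h) | h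
  all_goals exact sf_spec h w hz hz'

end Pool.Agent.UDL
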