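import Pool.Agent.UDL.Base

/-!
# Data of a periodic drawing and the tests
-/

set_option autoImplicit false

namespace Pool.Agent.UDL

open Pool.Agent.UDG

/-- vertices and edges modulo the periods `B1`, `B2`; the ends of the edges are lattice vectors;
`c` bounds the cells of the ends, `r` is the range of the offsets to be tested -/
structure Dt where
  V : List Z4
  E : List (Z4 × Z4)
  B1 : Z4
  B2 : Z4
  c : ℕ
  r : ℕ

/-- the period `s B1 + t B2` -/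
def Dt.tau (D : Dt) (s t : ℤ) : Z4 := ad (sm s D.B1) (sm t D.B2)

/-- the lattice vector with cell removed -/
def Dt.red (D : Dt) (p : Z4) : Z4 := sb p (D.tau p.2.2.1 p.2.2.2)

/-- the functional vanishing on `B2` -/
def Dt.f1 (D : Dt) (d : Z4) : Q := ph (cY D.B2) (neg (cX D.B2)) d

/-- the functional vanishing on `B1` -/
def Dt.f2 (D : Dt) (d : Z4) : Q := ph (neg (cY D.B1)) (cX D.B1) d

def Dt.sp (D : Dt) (P Q R S : Z4) : Bool :=
  sf (cY D.B2) (neg (cX D.B2)) P Q R S || sf (neg (cY D.B2)) (cX D.B2) P Q R S ||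
  sf (cY D.B1) (neg (cX D.B1)) P Q R S || sf (neg (cY D.B1)) (cX D.B1) P Q R S ||
  sep P Q R S

theorem Dt.sp_spec (D : Dt) {P Q R S : Z4} (h : D.sp P Q R S = true) (w : ℝ × ℝ)
    {z : ℝ × ℝ} (hz : z ∈ openSegment ℝ (pt P + w) (pt Q + w))
    (hz' : z ∈ openSegment ℝ (pt R + w) (pt S + w)) : False := by
  unfold Dt.sp at h
  simp only [Bool.or_eq_true] at h
  rcases h with (((h | h) | h) | h) | h
  · exact sf_spec h w hz hz'
  · exact sf_spec h w hz hz'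
  · exact sf_spec h w hz hz'
  · exact sf_spec h w hz hz'
  · exact sep_spec h w hz hz'

/-- the offsets `-r, …, r` -/
def Dt.off (D : Dt) : List ℤ :=
  (List.range (2 * D.r + 1)).map (fun (i : ℕ) => (i : ℤ) - (D.r : ℤ))

/-- all translates of edges to be tested -/
def Dt.cand (D : Dt) : List ((Z4 × Z4) × ℤ × ℤ) :=
  D.E.flatMap fun e => D.off.flatMap fun s => D.off.map fun t => (e, s, t)

/-- all translates of vertices to be tested -/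
def Dt.candV (D : Dt) : List Z4 :=
  D.V.flatMap fun v => D.off.flatMap fun s => D.off.map fun t => ad v (D.tau s t)

/-- the translates which may cross `e` -/
def Dt.bad (D : Dt) (e : Z4 × Z4) : List ((Z4 × Z4) × ℤ × ℤ) :=
  D.cand.filter fun x =>
    !(D.sp e.1 e.2 (ad x.1.1 (D.tau x.2.1 x.2.2)) (ad x.1.2 (D.tau x.2.1 x.2.2))) &&
    !(decide (x = (e, 0, 0)))

/-- ends of edges and vertices -/
def Dt.pts (D : Dt) : List Z4 := D.V ++ D.E.flatMap fun e => [e.1, e.2]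

/-- tests, part 1 -/
structure Dt.Ok (D : Dt) : Prop where
  vk : ∀ v ∈ D.V, v.2.2.1 = 0 ∧ v.2.2.2 = 0
  vp : ∀ v ∈ D.V, ps (cY v) = true
  bk1 : D.B1.2.2 = (1, 0)
  bk2 : D.B2.2.2 = (0, 1)
  bp1 : nn (cY D.B1) = true
  bp2 : nn (cY D.B2) = true
  vd : D.V.Nodup
  ed : D.E.Nodup
  unit : ∀ e ∈ D.E, add (mul (3, 0) (mul (cX (sb e.2 e.1)) (cX (sb e.2 e.1))))
    (mul (cY (sb e.2 e.1)) (cY (sb e.2 e.1))) = (432, 0)
  mem1 : ∀ e ∈ D.E, D.red e.1 ∈ D.V ∧ 0 ≤ e.1.2.2.1 ∧ e.1.2.2.1 ≤ D.c ∧ 0 ≤ e.1.2.2.2 ∧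
    e.1.2.2.2 ≤ D.c
  mem2 : ∀ e ∈ D.E, D.red e.2 ∈ D.V ∧ 0 ≤ e.2.2.2.1 ∧ e.2.2.2.1 ≤ D.c ∧ 0 ≤ e.2.2.2.2 ∧
    e.2.2.2.2 ≤ D.c
  dist1 : ∀ e ∈ D.E, ∀ e' ∈ D.E, sb e.1 e'.1 = sb e.2 e'.2 →
    D.red (sb e.1 e'.1) = (0, 0, 0, 0) → e = e'
  dist2 : ∀ e ∈ D.E, ∀ e' ∈ D.E, sb e.1 e'.2 = sb e.2 e'.1 →
    ¬ D.red (sb e.1 e'.2) = (0, 0, 0, 0)
  pos : ps (D.f1 D.B1) = true
  pos2 : ps (D.f2 D.B2) = true
  far1 : ∀ p ∈ D.pts, ∀ q ∈ D.pts,
    ps (add (mul ((D.r : ℤ) + 1, 0) (D.f1 D.B1)) (D.f1 (sb q p))) = true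
  far2 : ∀ p ∈ D.pts, ∀ q ∈ D.pts,
    ps (add (mul ((D.r : ℤ) + 1, 0) (D.f2 D.B2)) (D.f2 (sb q p))) = true

/-- tests, part 2 -/
def Dt.free (D : Dt) : Bool := D.E.all fun e => D.candV.all fun v => D.sp e.1 e.2 v v

/-- tests, part 3 -/
def Dt.pl (D : Dt) (k : ℕ) : Bool := D.E.all fun e => decide ((D.bad e).length ≤ k)

end Pool.Agent.UDL
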