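import Pool.Agent.UDL.Chk

/-!
# A periodic 2-planar unit distance graph
-/

set_option autoImplicit false

namespace Pool.Agent.UDL

def D2 : Dt where
  V := [(-1, 1, 0, 0), (-1, 2, 0, 0), (-1, 3, 0, 0), (0, 1, 0, 0), (0, 2, 0, 0), (0, 3, 0, 0)]
  E := [((-1, 1, 0, 0), (0, 1, 0, 0)),
    ((-1, 1, 0, 0), (-1, 2, 0, 0)),
    ((-1, 1, 0, 0), (-1, 1, 0, 1)),
    ((-1, 2, 1, 0), (-1, 2, 0, 1)),
    ((-1, 2, 0, 0), (0, 2, 0, 0)),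
    ((-1, 2, 0, 0), (-1, 3, 0, 0)),
    ((-1, 2, 0, 0), (-1, 2, 1, 0)),
    ((-1, 2, 0, 0), (-1, 2, 0, 1)),
    ((-1, 3, 1, 0), (-1, 3, 0, 1)),
    ((-1, 3, 0, 0), (0, 3, 0, 0)),
    ((-1, 3, 0, 0), (-2, 2, 1, 1)),
    ((-1, 3, 0, 0), (-1, 3, 1, 0)),
    ((-1, 3, 0, 0), (-1, 3, 0, 1)),
    ((0, 1, 0, 0), (0, 2, 0, 0)),
    ((0, 1, 0, 0), (-1, 2, 0, 0)),
    ((0, 2, 0, 0), (0, 3, 0, 0)),
    ((0, 2, 0, 0), (-1, 3, 0, 0)),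
    ((0, 2, 0, 0), (0, 2, 1, 0)),
    ((0, 3, 0, 0), (-1, 2, 1, 1)),
    ((0, 3, 0, 0), (0, 3, 1, 0))]
  B1 := (0, 1, 1, 0)
  B2 := (-1, 0, 0, 1)
  c := 1
  r := 1

set_option maxRecDepth 100000 in
theorem D2_ok : D2.Ok := by
  constructor <;> decide +kernel

set_option maxRecDepth 100000 in
theorem D2_free : D2.free = true := by decide +kernel

set_option maxRecDepth 100000 in
theorem D2_pl : D2.pl 2 = true := by decide +kernel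

end Pool.Agent.UDL
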