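import Pool.Agent.UDL.Spl

set_option autoImplicit false

namespace Pool.Agent.UDL

def D4 : Dt where
  V := [(0, 2, 0, 0), (1, 1, 0, 0), (1, 2, 0, 0), (2, 1, 0, 0)]
  E := [((0, 2, 0, 0), (1, 2, 0, 0)),
    ((0, 2, 0, 0), (0, 2, 1, 0)),
    ((0, 2, 0, 0), (0, 2, 0, 1)),
    ((-1, 3, 1, 0), (-1, 3, 0, 1)),
    ((-2, 4, 2, 0), (0, 3, 0, 1)),
    ((1, 1, 0, 0), (2, 1, 0, 0)),
    ((1, 1, 0, 0), (1, 2, 0, 0)),
    ((1, 1, 0, 0), (0, 2, 0, 0)),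
    ((0, 2, 1, 0), (0, 2, 0, 1)),
    ((-1, 3, 2, 0), (1, 2, 0, 1)),
    ((1, 2, 0, 0), (1, 2, 1, 0)),
    ((1, 2, 0, 0), (1, 2, 0, 1)),
    ((0, 3, 1, 0), (0, 3, 0, 1)),
    ((2, 1, 0, 0), (1, 2, 0, 0)),
    ((1, 2, 1, 0), (1, 2, 0, 1))]
  B1 := (-1, 1, 1, 0)
  B2 := (-1, 1, 0, 1)
  c := 2
  r := 2

set_option maxRecDepth 100000 in
theorem D4_ok : D4.Ok := by
  constructor <;> decide +kernel

set_option maxRecDepth 100000 in
theorem D4_free : D4.free = true := by decide +kernel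

set_option maxRecDepth 100000 in
theorem D4_pl1 : D4.plL 4 ((D4.E.drop 0).take 5) = true := by decide +kernel

set_option maxRecDepth 100000 in
theorem D4_pl2 : D4.plL 4 ((D4.E.drop 5).take 5) = true := by decide +kernel

set_option maxRecDepth 100000 in
theorem D4_pl3 : D4.plL 4 (D4.E.drop 10) = true := by decide +kernel

theorem D4_pl : D4.pl 4 = true :=
  pl_of (pl_app D4_pl1 (pl_app D4_pl2 D4_pl3)) rfl

end Pool.Agent.UDL
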