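import Pool.Agent.UDL.Spl

/-!
# A periodic 6-planar unit distance graph
-/

set_option autoImplicit false

namespace Pool.Agent.UDL

def D6 : Dt where
  V := [(0, 2, 0, 0), (1, 3, 0, 0), (2, 1, 0, 0)]
  E := [((0, 2, 0, 0), (0, 2, 1, 0)),
    ((0, 2, 0, 0), (0, 2, 0, 1)),
    ((0, 2, 1, 0), (0, 2, 0, 1)),
    ((0, 2, 2, 0), (2, 1, 0, 1)),
    ((1, 3, 0, 0), (1, 3, 1, 0)),
    ((1, 3, 0, 0), (1, 3, 0, 1)),
    ((1, 3, 1, 0), (1, 3, 0, 1)),
    ((1, 3, 0, 0), (0, 2, 1, 1)),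
    ((1, 3, 1, 0), (2, 1, 0, 2)),
    ((2, 1, 0, 0), (2, 1, 1, 0)),
    ((2, 1, 0, 0), (2, 1, 0, 1)),
    ((2, 1, 1, 0), (2, 1, 0, 1))]
  B1 := (0, 0, 1, 0)
  B2 := (0, 0, 0, 1)
  c := 2
  r := 2

set_option maxRecDepth 100000 in
theorem D6_ok : D6.Ok := by
  constructor <;> decide +kernel

set_option maxRecDepth 100000 in
theorem D6_free : D6.free = true := by decide +kernel

set_option maxRecDepth 100000 in
theorem D6_pl1 : D6.plL 6 ((D6.E.drop 0).take 6) = true := by decide +kernel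

set_option maxRecDepth 100000 in
theorem D6_pl2 : D6.plL 6 (D6.E.drop 6) = true := by decide +kernel

theorem D6_pl : D6.pl 6 = true :=
  pl_of (pl_app D6_pl1 D6_pl2) rfl

end Pool.Agent.UDL
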