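import Pool.Agent.UDL.Main
import Pool.Agent.UDL.D2

/-!
# The lower bound for `k = 2`
-/

set_option autoImplicit false

namespace Pool.Agent.UDL

open Pool.Agent.UDG

theorem main2 (n : ℕ) : (10 / 3 : ℝ) * n - 33 * Real.sqrt n ≤ u 2 n := by
  have h := asym D2_ok D2_free D2_pl (by decide) n
  have e1 : D2.E.length = 20 := rfl
  have e2 : D2.V.length = 6 := rfl
  have e3 : D2.c = 1 := rfl
  rw [e1, e2, e3] at h
  push_cast at h
  have h1 : Real.sqrt (n / 6) ≤ 33 / 80 * Real.sqrt n := by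
    have h2 : (n : ℝ) / 6 ≤ (33 / 80 * Real.sqrt n) ^ 2 := by
      rw [mul_pow, Real.sq_sqrt (Nat.cast_nonneg n)]
      have : (0 : ℝ) ≤ n := Nat.cast_nonneg n
      nlinarith
    calc Real.sqrt (n / 6) ≤ Real.sqrt ((33 / 80 * Real.sqrt n) ^ 2) := Real.sqrt_le_sqrt h2
      _ = 33 / 80 * Real.sqrt n := Real.sqrt_sq (by positivity)
  have h3 : (20 : ℝ) / 6 * n = 10 / 3 * n := by ring
  rw [h3] at h
  linarith

end Pool.Agent.UDL
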