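import Pool.Agent.UDL.Gen
import Pool.Agent.UDL.D4
import Pool.Agent.UDL.D6

/-!
# The lower bounds for `k = 4` and `k = 6`
-/

set_option autoImplicit false

namespace Pool.Agent.UDL

open Pool.Agent.UDG

theorem main4 (n : ℕ) : (15 / 4 : ℝ) * n - 45 * Real.sqrt n ≤ u 4 n := by
  have e1 : D4.E.length = 15 := rfl
  have e2 : D4.V.length = 4 := rfl
  have e3 : D4.c = 2 := rfl
  refine low_of D4_ok D4_free D4_pl (by decide) n (15 / 4) 45 ?_ (by norm_num) ?_
  · rw [e1, e2]; norm_num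
  · rw [e1, e2, e3]; norm_num

theorem main6 (n : ℕ) : (4 : ℝ) * n - 42 * Real.sqrt n ≤ u 6 n := by
  have e1 : D6.E.length = 12 := rfl
  have e2 : D6.V.length = 3 := rfl
  have e3 : D6.c = 2 := rfl
  refine low_of D6_ok D6_free D6_pl (by decide) n 4 42 ?_ (by norm_num) ?_
  · rw [e1, e2]; norm_num
  · rw [e1, e2, e3]; norm_num

end Pool.Agent.UDL
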