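import Pool.Agent.UDL.Main

/-!
# The lower bound in a convenient form
-/

set_option autoImplicit false

namespace Pool.Agent.UDL

open Pool.Agent.UDG

theorem low_of {D : Dt} (h : D.Ok) (hf : D.free = true) {k : ℕ} (hp : D.pl k = true)
    (hV : 0 < D.V.length) (n : ℕ) (a C : ℝ) (ha : a = (D.E.length : ℝ) / D.V.length)
    (hC0 : 0 ≤ C) (hC : (2 * (D.E.length : ℝ) * (D.c + 1)) ^ 2 ≤ C ^ 2 * D.V.length) :
    a * n - C * Real.sqrt n ≤ u k n := by
  have h1 := asym h hf hp hV n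
  rw [← ha] at h1
  obtain ⟨v, hv⟩ : ∃ v : ℝ, v = D.V.length := ⟨_, rfl⟩
  obtain ⟨A, hA⟩ : ∃ A : ℝ, A = 2 * (D.E.length : ℝ) * (D.c + 1) := ⟨_, rfl⟩
  have hv0 : 0 < v := by rw [hv]; exact_mod_cast hV
  have hA0 : 0 ≤ A := by rw [hA]; positivity
  rw [← hv, ← hA] at hC h1
  have h2 : A ≤ C * Real.sqrt v := by
    have h3 : (C * Real.sqrt v) ^ 2 = C ^ 2 * v := by
      rw [mul_pow, Real.sq_sqrt hv0.le]
    have h4 : 0 ≤ C * Real.sqrt v := mul_nonneg hC0 (Real.sqrt_nonneg _)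
    have h5 : A ^ 2 ≤ (C * Real.sqrt v) ^ 2 := by rw [h3]; exact hC
    exact (pow_le_pow_iff_left₀ hA0 h4 (by norm_num)).1 h5
  have h6 : A * Real.sqrt (n / v) ≤ C * Real.sqrt n := by
    rw [Real.sqrt_div (Nat.cast_nonneg n)]
    have hs : 0 < Real.sqrt v := Real.sqrt_pos.2 hv0
    have h7 : A * (Real.sqrt n / Real.sqrt v) = A / Real.sqrt v * Real.sqrt n := by ring
    rw [h7]
    have h8 : A / Real.sqrt v ≤ C := by
      rw [div_le_iff₀ hs]; exact h2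
    exact mul_le_mul_of_nonneg_right h8 (Real.sqrt_nonneg _)
  linarith

end Pool.Agent.UDL
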