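import Pool.Agent.UDL.Chk

/-!
# The drawings of a periodic pattern
-/

set_option autoImplicit false

namespace Pool.Agent.UDL

open Pool.Agent.UDG

theorem irr33 : Irrational (Real.sqrt 33) := by
  have h : Irrational (Real.sqrt ((33 : ℕ) : ℝ)) := by
    rw [irrational_sqrt_natCast_iff]
    rintro ⟨a, ha⟩
    have h1 : a < 6 := by nlinarith
    have h2 : 5 < a := by nlinarith
    omega
  exact_mod_cast h

theorem val_inj {x y : Q} (h : val x = val y) : x = y := by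
  unfold val at h
  have h1 : ((x.2 - y.2 : ℤ) : ℝ) * Real.sqrt 33 = ((y.1 - x.1 : ℤ) : ℝ) := by
    push_cast
    linarith
  have h2 : x.2 = y.2 := by
    by_contra hne
    have h3 : x.2 - y.2 ≠ 0 := sub_ne_zero.2 hne
    have h4 := irr33.intCast_mul h3
    rw [h1] at h4
    exact h4.ne_int _ rfl
  have h3 : x.1 = y.1 := by
    rw [h2, sub_self, Int.cast_zero, zero_mul] at h1
    have h4 : y.1 - x.1 = 0 := by exact_mod_cast h1.symm
    omega
  exact Prod.ext h3 h2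

theorem pt_inj {p q : Z4} (h : pt p = pt q) : p = q := by
  have h1 := congrArg Prod.fst h
  have h2 := congrArg Prod.snd h
  simp only [pt] at h1 h2
  have h3 : val (cX p) = val (cX q) := by linarith
  have h4 : val (cY p) = val (cY q) := by
    have h5 : Real.sqrt 3 * val (cY p) = Real.sqrt 3 * val (cY q) := by linarith
    exact mul_left_cancel₀ s3_ne h5
  have h5 := val_inj h3
  have h6 := val_inj h4
  obtain ⟨a, b, c, d⟩ := p
  obtain ⟨a', b', c', d'⟩ := q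
  simp only [cX, cY, Prod.mk.injEq] at h5 h6
  obtain ⟨h5a, h5b⟩ := h5
  obtain ⟨h6a, h6b⟩ := h6
  have e1 : d = d' := by omega
  have e2 : c = c' := by omega
  have e3 : b = b' := by omega
  have e4 : a = a' := by omega
  rw [e1, e2, e3, e4]

theorem pt_ad (p q : Z4) : pt (ad p q) = pt p + pt q := by
  unfold pt
  rw [cX_ad, cY_ad]
  apply Prod.ext
  · show (val (cX p) + val (cX q)) / 12 = val (cX p) / 12 + val (cX q) / 12
    ring
  · show Real.sqrt 3 * (val (cY p) + val (cY q)) / 36 = Real.sqrt 3 * val (cY p) / 36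
      + Real.sqrt 3 * val (cY q) / 36
    ring

theorem ad_comm4 (p q : Z4) : ad p q = ad q p := by
  obtain ⟨a, b, c, d⟩ := p
  obtain ⟨a', b', c', d'⟩ := q
  simp only [ad, Prod.mk.injEq]
  refine ⟨?_, ?_, ?_, ?_⟩ <;> ring

variable {D : Dt}

theorem tau_ad (s t s' t' : ℤ) (p : Z4) :
    ad p (D.tau (s + s') (t + t')) = ad (ad p (D.tau s t)) (D.tau s' t') := by
  simp only [ad, Dt.tau, sm, Prod.mk.injEq]
  refine ⟨?_, ?_, ?_, ?_⟩ <;> ring

theorem red_ad (p : Z4) (s t : ℤ) :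
    ad p (D.tau s t) = ad (D.red p) (D.tau (p.2.2.1 + s) (p.2.2.2 + t)) := by
  simp only [ad, sb, Dt.red, Dt.tau, sm, Prod.mk.injEq]
  refine ⟨?_, ?_, ?_, ?_⟩ <;> ring

theorem Dt.f1_eq (p q : Z4) (s t : ℤ) (w : ℝ × ℝ) :
    fn (cY D.B2) (neg (cX D.B2)) (pt (ad q (D.tau s t)) + w)
      - fn (cY D.B2) (neg (cX D.B2)) (pt p + w)
      = s * val (D.f1 D.B1) + val (D.f1 (sb q p)) := by
  have h0 : val (ph (cY D.B2) (neg (cX D.B2)) D.B2) = 0 := by
    unfold ph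
    rw [val_add, val_mul, val_mul, val_neg]
    ring
  unfold Dt.f1
  rw [fn_add, fn_add, fn_pt, fn_pt, ph_ad, ph_sb]
  unfold Dt.tau
  rw [ph_ad, ph_sm, ph_sm, h0]
  ring

theorem Dt.f2_eq (p q : Z4) (s t : ℤ) (w : ℝ × ℝ) :
    fn (neg (cY D.B1)) (cX D.B1) (pt (ad q (D.tau s t)) + w)
      - fn (neg (cY D.B1)) (cX D.B1) (pt p + w)
      = t * val (D.f2 D.B2) + val (D.f2 (sb q p)) := by
  have h0 : val (ph (neg (cY D.B1)) (cX D.B1) D.B1) = 0 := by
    unfold ph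
    rw [val_add, val_mul, val_mul, val_neg]
    ring
  unfold Dt.f2
  rw [fn_add, fn_add, fn_pt, fn_pt, ph_ad, ph_sb]
  unfold Dt.tau
  rw [ph_ad, ph_sm, ph_sm, h0]
  ring

/-- all differences positive -/
theorem sep_pos (f : ℝ × ℝ → ℝ) (hadd : ∀ z w, f (z + w) = f z + f w)
    (hsm : ∀ (c : ℝ) z, f (c • z) = c * f z) {P Q R S : ℝ × ℝ}
    (h1 : 0 < f R - f P) (h2 : 0 < f S - f P) (h3 : 0 < f R - f Q) (h4 : 0 < f S - f Q)
    {z : ℝ × ℝ} (hz : z ∈ openSegment ℝ P Q) (hz' : z ∈ openSegment ℝ R S) : False :=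
  sep_core f hadd hsm h1.le h2.le h3.le h4.le (by linarith) hz hz'

theorem far_sep (h : D.Ok) {P Q R S : Z4} (hP : P ∈ D.pts) (hQ : Q ∈ D.pts) (hR : R ∈ D.pts)
    (hS : S ∈ D.pts) {s t : ℤ} (hst : ¬ (-(D.r : ℤ) ≤ s ∧ s ≤ D.r ∧ -(D.r : ℤ) ≤ t ∧ t ≤ D.r))
    (w : ℝ × ℝ) {z : ℝ × ℝ} (hz : z ∈ openSegment ℝ (pt P + w) (pt Q + w))
    (hz' : z ∈ openSegment ℝ (pt (ad R (D.tau s t)) + w) (pt (ad S (D.tau s t)) + w)) :
    False := by
  have c1 : ∀ p ∈ D.pts, ∀ q ∈ D.pts, 0 < ((D.r : ℝ) + 1) * val (D.f1 D.B1)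
      + val (D.f1 (sb q p)) := by
    intro p hp q hq
    have := ps_val (h.far1 p hp q hq)
    rw [val_add, val_mul] at this
    simpa [val] using this
  have c2 : ∀ p ∈ D.pts, ∀ q ∈ D.pts, 0 < ((D.r : ℝ) + 1) * val (D.f2 D.B2)
      + val (D.f2 (sb q p)) := by
    intro p hp q hq
    have := ps_val (h.far2 p hp q hq)
    rw [val_add, val_mul] at this
    simpa [val] using this
  have p1 := ps_val h.pos
  have p2 := ps_val h.pos2
  have m1 : ∀ p q : Z4, val (D.f1 (sb q p)) = -val (D.f1 (sb p q)) := by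
    intro p q
    unfold Dt.f1
    rw [ph_sb, ph_sb]; ring
  have m2 : ∀ p q : Z4, val (D.f2 (sb q p)) = -val (D.f2 (sb p q)) := by
    intro p q
    unfold Dt.f2
    rw [ph_sb, ph_sb]; ring
  by_cases hs1 : (D.r : ℤ) + 1 ≤ s
  · have hs : (D.r : ℝ) + 1 ≤ s := by exact_mod_cast hs1
    have key : ∀ p ∈ D.pts, ∀ q ∈ D.pts, 0 < fn (cY D.B2) (neg (cX D.B2))
        (pt (ad q (D.tau s t)) + w) - fn (cY D.B2) (neg (cX D.B2)) (pt p + w) := by
      intro p hp q hq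
      rw [Dt.f1_eq]
      have := c1 p hp q hq
      nlinarith
    exact sep_pos _ (fn_add _ _) (fn_smul _ _) (key P hP R hR) (key P hP S hS) (key Q hQ R hR)
      (key Q hQ S hS) hz hz'
  by_cases hs2 : s ≤ -((D.r : ℤ) + 1)
  · have hs : (s : ℝ) ≤ -((D.r : ℝ) + 1) := by exact_mod_cast hs2
    have key : ∀ p ∈ D.pts, ∀ q ∈ D.pts, 0 < fn (cY D.B2) (neg (cX D.B2)) (pt p + w)
        - fn (cY D.B2) (neg (cX D.B2)) (pt (ad q (D.tau s t)) + w) := by
      intro p hp q hq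
      have e := Dt.f1_eq (D := D) p q s t w
      have := c1 q hq p hp
      rw [m1 p q] at e
      nlinarith
    exact sep_pos _ (fn_add _ _) (fn_smul _ _) (key P hP R hR) (key Q hQ R hR) (key P hP S hS)
      (key Q hQ S hS) hz' hz
  by_cases ht1 : (D.r : ℤ) + 1 ≤ t
  · have hs : (D.r : ℝ) + 1 ≤ t := by exact_mod_cast ht1
    have key : ∀ p ∈ D.pts, ∀ q ∈ D.pts, 0 < fn (neg (cY D.B1)) (cX D.B1)
        (pt (ad q (D.tau s t)) + w) - fn (neg (cY D.B1)) (cX D.B1) (pt p + w) := by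
      intro p hp q hq
      rw [Dt.f2_eq]
      have := c2 p hp q hq
      nlinarith
    exact sep_pos _ (fn_add _ _) (fn_smul _ _) (key P hP R hR) (key P hP S hS) (key Q hQ R hR)
      (key Q hQ S hS) hz hz'
  by_cases ht2 : t ≤ -((D.r : ℤ) + 1)
  · have hs : (t : ℝ) ≤ -((D.r : ℝ) + 1) := by exact_mod_cast ht2
    have key : ∀ p ∈ D.pts, ∀ q ∈ D.pts, 0 < fn (neg (cY D.B1)) (cX D.B1) (pt p + w)
        - fn (neg (cY D.B1)) (cX D.B1) (pt (ad q (D.tau s t)) + w) := by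
      intro p hp q hq
      have e := Dt.f2_eq (D := D) p q s t w
      have := c2 q hq p hp
      rw [m2 p q] at e
      nlinarith
    exact sep_pos _ (fn_add _ _) (fn_smul _ _) (key P hP R hR) (key Q hQ R hR) (key P hP S hS)
      (key Q hQ S hS) hz' hz
  exact hst (by omega)

theorem mem_off {x : ℤ} (h1 : -(D.r : ℤ) ≤ x) (h2 : x ≤ D.r) : x ∈ D.off := by
  unfold Dt.off
  rw [List.mem_map]
  refine ⟨(x + D.r).toNat, ?_, ?_⟩
  · rw [List.mem_range]; omega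
  · omega

theorem mem_pts1 {e : Z4 × Z4} (he : e ∈ D.E) : e.1 ∈ D.pts := by
  unfold Dt.pts
  rw [List.mem_append]
  right
  rw [List.mem_flatMap]
  exact ⟨e, he, by simp⟩

theorem mem_pts2 {e : Z4 × Z4} (he : e ∈ D.E) : e.2 ∈ D.pts := by
  unfold Dt.pts
  rw [List.mem_append]
  right
  rw [List.mem_flatMap]
  exact ⟨e, he, by simp⟩

theorem mem_pts0 {v : Z4} (hv : v ∈ D.V) : v ∈ D.pts := by
  unfold Dt.pts
  rw [List.mem_append]
  exact Or.inl hv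

/-- crossing translates are in the list -/
theorem crossing (h : D.Ok) {e e' : Z4 × Z4} (he : e ∈ D.E) (he' : e' ∈ D.E) (s0 t0 s1 t1 : ℤ)
    {z : ℝ × ℝ}
    (hz : z ∈ openSegment ℝ (pt (ad e.1 (D.tau s0 t0))) (pt (ad e.2 (D.tau s0 t0))))
    (hz' : z ∈ openSegment ℝ (pt (ad e'.1 (D.tau s1 t1))) (pt (ad e'.2 (D.tau s1 t1)))) :
    (e', s1 - s0, t1 - t0) ∈ D.bad e ∨ (e' = e ∧ s1 = s0 ∧ t1 = t0) := by
  have hw : ∀ p : Z4, pt (ad p (D.tau s1 t1)) = pt (ad p (D.tau (s1 - s0) (t1 - t0)))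
      + pt (D.tau s0 t0) := by
    intro p
    rw [← pt_ad, ← tau_ad, sub_add_cancel, sub_add_cancel]
  rw [pt_ad, pt_ad] at hz
  rw [hw, hw] at hz'
  by_cases hst : -(D.r : ℤ) ≤ s1 - s0 ∧ s1 - s0 ≤ D.r ∧ -(D.r : ℤ) ≤ t1 - t0 ∧ t1 - t0 ≤ D.r
  · obtain ⟨a1, a2, a3, a4⟩ := hst
    by_cases heq : (e', s1 - s0, t1 - t0) = (e, (0 : ℤ), (0 : ℤ))
    · right
      have q1 : e' = e := congrArg Prod.fst heq
      have q2 : s1 - s0 = 0 := congrArg (fun x => x.2.1) heq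
      have q3 : t1 - t0 = 0 := congrArg (fun x => x.2.2) heq
      exact ⟨q1, by omega, by omega⟩
    · left
      unfold Dt.bad
      rw [List.mem_filter]
      refine ⟨?_, ?_⟩
      · unfold Dt.cand
        rw [List.mem_flatMap]
        refine ⟨e', he', ?_⟩
        rw [List.mem_flatMap]
        refine ⟨s1 - s0, mem_off a1 a2, ?_⟩
        rw [List.mem_map]
        exact ⟨t1 - t0, mem_off a3 a4, rfl⟩
      · rw [Bool.and_eq_true, Bool.not_eq_true', Bool.not_eq_true']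
        refine ⟨?_, ?_⟩
        · by_contra hc
          rw [Bool.not_eq_false] at hc
          exact D.sp_spec hc _ hz hz'
        · exact decide_eq_false heq
  · exact (far_sep h (mem_pts1 he) (mem_pts2 he) (mem_pts1 he') (mem_pts2 he') hst _ hz hz').elim

/-- vertices are not on edges -/
theorem not_on (h : D.Ok) (hf : D.free = true) {e : Z4 × Z4} (he : e ∈ D.E) {v : Z4}
    (hv : v ∈ D.V) (s0 t0 s1 t1 : ℤ) :
    pt (ad v (D.tau s1 t1)) ∉
      openSegment ℝ (pt (ad e.1 (D.tau s0 t0))) (pt (ad e.2 (D.tau s0 t0))) := by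
  intro hz
  have hw : pt (ad v (D.tau s1 t1)) = pt (ad v (D.tau (s1 - s0) (t1 - t0)))
      + pt (D.tau s0 t0) := by
    rw [← pt_ad, ← tau_ad, sub_add_cancel, sub_add_cancel]
  rw [pt_ad, pt_ad] at hz
  have hz' : pt (ad v (D.tau s1 t1)) ∈ openSegment ℝ
      (pt (ad v (D.tau (s1 - s0) (t1 - t0))) + pt (D.tau s0 t0))
      (pt (ad v (D.tau (s1 - s0) (t1 - t0))) + pt (D.tau s0 t0)) := by
    rw [hw, openSegment_same]
    exact Set.mem_singleton _
  by_cases hst : -(D.r : ℤ) ≤ s1 - s0 ∧ s1 - s0 ≤ D.r ∧ -(D.r : ℤ) ≤ t1 - t0 ∧ t1 - t0 ≤ D.r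
  · obtain ⟨a1, a2, a3, a4⟩ := hst
    unfold Dt.free at hf
    rw [List.all_eq_true] at hf
    have hf1 := hf e he
    rw [List.all_eq_true] at hf1
    have hf2 := hf1 (ad v (D.tau (s1 - s0) (t1 - t0))) (by
      unfold Dt.candV
      rw [List.mem_flatMap]
      refine ⟨v, hv, ?_⟩
      rw [List.mem_flatMap]
      refine ⟨s1 - s0, mem_off a1 a2, ?_⟩
      rw [List.mem_map]
      exact ⟨t1 - t0, mem_off a3 a4, rfl⟩)
    exact D.sp_spec hf2 _ hz hz'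
  · exact far_sep h (mem_pts1 he) (mem_pts2 he) (mem_pts0 hv) (mem_pts0 hv) hst _ hz hz'

/-! ### The graph -/

/-- indices of the edges -/
def Dt.idx (D : Dt) (M : ℕ) : Finset ((Z4 × Z4) × ℕ × ℕ) :=
  D.E.toFinset ×ˢ Finset.range M ×ˢ Finset.range M

noncomputable def Dt.fe (D : Dt) (x : (Z4 × Z4) × ℕ × ℕ) : Sym2 (ℝ × ℝ) :=
  s(pt (ad x.1.1 (D.tau x.2.1 x.2.2)), pt (ad x.1.2 (D.tau x.2.1 x.2.2)))

noncomputable def Dt.G (D : Dt) (M : ℕ) : SimpleGraph (ℝ × ℝ) :=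
  SimpleGraph.fromEdgeSet (D.fe '' (D.idx M))

/-- indices of the vertices -/
def Dt.idv (D : Dt) (M : ℕ) : Finset (Z4 × ℕ × ℕ) :=
  D.V.toFinset ×ˢ Finset.range (M + D.c) ×ˢ Finset.range (M + D.c)

noncomputable def Dt.fv (D : Dt) (x : Z4 × ℕ × ℕ) : ℝ × ℝ := pt (ad x.1 (D.tau x.2.1 x.2.2))

noncomputable def ext (j : ℕ) : ℝ × ℝ := ((j : ℝ), -1)

noncomputable def Dt.S (D : Dt) (M m : ℕ) : Finset (ℝ × ℝ) :=
  (D.idv M).image D.fv ∪ (Finset.range m).image ext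

theorem mem_idx {M : ℕ} {x : (Z4 × Z4) × ℕ × ℕ} :
    x ∈ D.idx M ↔ x.1 ∈ D.E ∧ x.2.1 < M ∧ x.2.2 < M := by
  unfold Dt.idx
  rw [Finset.mem_product, Finset.mem_product, List.mem_toFinset, Finset.mem_range,
    Finset.mem_range]

theorem mem_idv {M : ℕ} {x : Z4 × ℕ × ℕ} :
    x ∈ D.idv M ↔ x.1 ∈ D.V ∧ x.2.1 < M + D.c ∧ x.2.2 < M + D.c := by
  unfold Dt.idv
  rw [Finset.mem_product, Finset.mem_product, List.mem_toFinset, Finset.mem_range,
    Finset.mem_range]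

theorem dsq_pt (p q w : Z4)
    (h : add (mul (3, 0) (mul (cX (sb q p)) (cX (sb q p)))) (mul (cY (sb q p)) (cY (sb q p)))
      = (432, 0)) : dsq (pt (ad p w)) (pt (ad q w)) = 1 := by
  have h1 := congrArg val h
  rw [val_add, val_mul, val_mul, val_mul, cX_sb, cY_sb] at h1
  have h2 : val ((3 : ℤ), (0 : ℤ)) = 3 := by simp [val]
  have h3 : val ((432 : ℤ), (0 : ℤ)) = 432 := by simp [val]
  rw [h2, h3] at h1
  unfold dsq pt
  rw [cX_ad, cX_ad, cY_ad, cY_ad]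
  have h4 : Real.sqrt 3 * Real.sqrt 3 = 3 := Real.mul_self_sqrt (by norm_num)
  show ((val (cX p) + val (cX w)) / 12 - (val (cX q) + val (cX w)) / 12) ^ 2
    + (Real.sqrt 3 * (val (cY p) + val (cY w)) / 36
      - Real.sqrt 3 * (val (cY q) + val (cY w)) / 36) ^ 2 = 1
  have h5 : (Real.sqrt 3 * (val (cY p) + val (cY w)) / 36
      - Real.sqrt 3 * (val (cY q) + val (cY w)) / 36) ^ 2
      = (Real.sqrt 3 * Real.sqrt 3) * (val (cY q) - val (cY p)) ^ 2 / 1296 := by ring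
  rw [h5, h4]
  nlinarith

theorem G_adj {M : ℕ} {p q : ℝ × ℝ} :
    (D.G M).Adj p q ↔ (∃ x ∈ D.idx M, D.fe x = s(p, q)) ∧ p ≠ q := by
  unfold Dt.G
  rw [SimpleGraph.fromEdgeSet_adj]
  simp only [Set.mem_image, Finset.mem_coe]

theorem fe_ne (h : D.Ok) {x : (Z4 × Z4) × ℕ × ℕ} (hx : x.1 ∈ D.E) : ¬ (D.fe x).IsDiag := by
  unfold Dt.fe
  rw [Sym2.mk_isDiag_iff]
  intro he
  have h1 := dsq_pt x.1.1 x.1.2 (D.tau x.2.1 x.2.2) (h.unit _ hx)
  rw [he] at h1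
  unfold dsq at h1
  norm_num at h1

theorem edgeSet_eq (h : D.Ok) (M : ℕ) : (D.G M).edgeSet = D.fe '' (D.idx M) := by
  unfold Dt.G
  rw [SimpleGraph.edgeSet_fromEdgeSet]
  ext e
  constructor
  · rintro ⟨h1, _⟩
    exact h1
  · rintro ⟨x, hx, rfl⟩
    refine ⟨⟨x, hx, rfl⟩, ?_⟩
    exact fe_ne h (mem_idx.1 hx).1

theorem tau_k (h : D.Ok) (s t : ℤ) : (D.tau s t).2.2 = (s, t) := by
  have h1 : D.B1.2.2.1 = 1 := by rw [h.bk1]
  have h2 : D.B1.2.2.2 = 0 := by rw [h.bk1]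
  have h3 : D.B2.2.2.1 = 0 := by rw [h.bk2]
  have h4 : D.B2.2.2.2 = 1 := by rw [h.bk2]
  simp only [Dt.tau, ad, sm, h1, h2, h3, h4, Prod.mk.injEq]
  constructor <;> ring

theorem red_zero (h : D.Ok) {p q : Z4} {s t s' t' : ℤ}
    (hpq : ad p (D.tau s t) = ad q (D.tau s' t')) :
    sb p q = D.tau (s' - s) (t' - t) ∧ D.red (sb p q) = (0, 0, 0, 0) := by
  have h1 : sb p q = D.tau (s' - s) (t' - t) := by
    simp only [ad, Dt.tau, sm, Prod.mk.injEq] at hpq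
    obtain ⟨a1, a2, a3, a4⟩ := hpq
    simp only [sb, Dt.tau, ad, sm, Prod.mk.injEq]
    refine ⟨?_, ?_, ?_, ?_⟩ <;> linarith
  refine ⟨h1, ?_⟩
  rw [h1]
  unfold Dt.red
  rw [tau_k h]
  simp [sb]

theorem fe_inj (h : D.Ok) {x y : (Z4 × Z4) × ℕ × ℕ} (hx : x.1 ∈ D.E) (hy : y.1 ∈ D.E)
    (hxy : D.fe x = D.fe y) : x = y := by
  unfold Dt.fe at hxy
  rw [Sym2.eq_iff] at hxy
  rcases hxy with ⟨h1, h2⟩ | ⟨h1, h2⟩
  · have k1 := pt_inj h1
    have k2 := pt_inj h2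
    obtain ⟨a1, a2⟩ := red_zero h k1
    obtain ⟨b1, _⟩ := red_zero h k2
    have hxy1 : x.1 = y.1 := h.dist1 _ hx _ hy (by rw [a1, b1]) a2
    have h3 : sb x.1.1 y.1.1 = (0, 0, 0, 0) := by
      rw [hxy1]; simp [sb]
    rw [h3] at a1
    have h4 : ((0 : ℤ), (0 : ℤ)) = (D.tau ((y.2.1 : ℤ) - x.2.1) ((y.2.2 : ℤ) - x.2.2)).2.2 := by
      rw [← a1]
    rw [tau_k h] at h4
    have h5 : (y.2.1 : ℤ) - x.2.1 = 0 := (congrArg Prod.fst h4).symm
    have h6 : (y.2.2 : ℤ) - x.2.2 = 0 := (congrArg Prod.snd h4).symm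
    apply Prod.ext hxy1
    apply Prod.ext <;> omega
  · have k1 := pt_inj h1
    have k2 := pt_inj h2
    obtain ⟨a1, a2⟩ := red_zero h k1
    obtain ⟨b1, _⟩ := red_zero h k2
    exact (h.dist2 _ hx _ hy (by rw [a1, b1]) a2).elim

theorem ncard_edges (h : D.Ok) (M : ℕ) : (D.G M).edgeSet.ncard = D.E.length * (M * M) := by
  rw [edgeSet_eq h, Set.InjOn.ncard_image, Set.ncard_coe_finset]
  · unfold Dt.idx
    rw [Finset.card_product, Finset.card_product, Finset.card_range,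
      List.toFinset_card_of_nodup h.ed]
  · intro x hx y hy hxy
    exact fe_inj h (mem_idx.1 hx).1 (mem_idx.1 hy).1 hxy

theorem fv_inj (h : D.Ok) {x y : Z4 × ℕ × ℕ} (hx : x.1 ∈ D.V) (hy : y.1 ∈ D.V)
    (hxy : D.fv x = D.fv y) : x = y := by
  unfold Dt.fv at hxy
  have k1 := pt_inj hxy
  obtain ⟨a1, _⟩ := red_zero h k1
  have v1 := h.vk _ hx
  have v2 := h.vk _ hy
  have h4 : (sb x.1 y.1).2.2 = (D.tau ((y.2.1 : ℤ) - x.2.1) ((y.2.2 : ℤ) - x.2.2)).2.2 := by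
    rw [← a1]
  rw [tau_k h] at h4
  have h5 : x.1.2.2.1 - y.1.2.2.1 = (y.2.1 : ℤ) - x.2.1 := congrArg Prod.fst h4
  have h6 : x.1.2.2.2 - y.1.2.2.2 = (y.2.2 : ℤ) - x.2.2 := congrArg Prod.snd h4
  have e1 : x.2.1 = y.2.1 := by omega
  have e2 : x.2.2 = y.2.2 := by omega
  have e3 : x.1 = y.1 := by
    rw [e1, e2, sub_self, sub_self] at a1
    simp only [sb, Dt.tau, ad, sm, zero_mul, add_zero, Prod.mk.injEq] at a1
    obtain ⟨b1, b2, b3, b4⟩ := a1
    refine Prod.ext (by omega) (Prod.ext (by omega) (Prod.ext (by omega) (by omega)))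
  exact Prod.ext e3 (Prod.ext e1 e2)

theorem fv_pos (h : D.Ok) {x : Z4 × ℕ × ℕ} (hx : x.1 ∈ D.V) : 0 < (D.fv x).2 := by
  have h1 := ps_val (h.vp _ hx)
  have h2 := nn_val h.bp1
  have h3 := nn_val h.bp2
  unfold Dt.fv pt Dt.tau
  show 0 < Real.sqrt 3 * val (cY (ad x.1 (ad (sm x.2.1 D.B1) (sm x.2.2 D.B2)))) / 36
  rw [cY_ad, cY_ad, cY_sm, cY_sm]
  have h4 : 0 < Real.sqrt 3 := Real.sqrt_pos.2 (by norm_num)
  push_cast
  positivity

theorem card_S (h : D.Ok) (M m : ℕ) :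
    (D.S M m).card = D.V.length * ((M + D.c) * (M + D.c)) + m := by
  unfold Dt.S
  rw [Finset.card_union_of_disjoint, Finset.card_image_of_injOn, Finset.card_image_of_injOn,
    Finset.card_range]
  · unfold Dt.idv
    rw [Finset.card_product, Finset.card_product, Finset.card_range,
      List.toFinset_card_of_nodup h.vd]
  · intro a _ b _ hab
    have := congrArg Prod.fst hab
    simp only [ext] at this
    exact_mod_cast this
  · intro x hx y hy hxy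
    exact fv_inj h (mem_idv.1 hx).1 (mem_idv.1 hy).1 hxy
  · rw [Finset.disjoint_left]
    intro p hp hq
    rw [Finset.mem_image] at hp hq
    obtain ⟨x, hx, rfl⟩ := hp
    obtain ⟨j, _, hj⟩ := hq
    have h1 := fv_pos h (mem_idv.1 hx).1
    rw [← hj] at h1
    simp only [ext] at h1
    linarith

theorem end_mem (h : D.Ok) {M : ℕ} {x : (Z4 × Z4) × ℕ × ℕ} (hx : x ∈ D.idx M) :
    (∃ y ∈ D.idv M, pt (ad x.1.1 (D.tau x.2.1 x.2.2)) = D.fv y) ∧
    (∃ y ∈ D.idv M, pt (ad x.1.2 (D.tau x.2.1 x.2.2)) = D.fv y) := by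
  obtain ⟨hE, hs, ht⟩ := mem_idx.1 hx
  obtain ⟨a1, a2, a3, a4, a5⟩ := h.mem1 _ hE
  obtain ⟨b1, b2, b3, b4, b5⟩ := h.mem2 _ hE
  constructor
  · refine ⟨(D.red x.1.1, (x.1.1.2.2.1 + x.2.1).toNat, (x.1.1.2.2.2 + x.2.2).toNat), ?_, ?_⟩
    · rw [mem_idv]
      refine ⟨a1, ?_, ?_⟩
      · show (x.1.1.2.2.1 + x.2.1).toNat < M + D.c
        omega
      · show (x.1.1.2.2.2 + x.2.2).toNat < M + D.c
        omega
    · unfold Dt.fv
      rw [red_ad]
      show _ = pt (ad (D.red x.1.1) (D.tau ((x.1.1.2.2.1 + x.2.1).toNat : ℕ)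
        ((x.1.1.2.2.2 + x.2.2).toNat : ℕ)))
      rw [Int.toNat_of_nonneg (by omega), Int.toNat_of_nonneg (by omega)]
  · refine ⟨(D.red x.1.2, (x.1.2.2.2.1 + x.2.1).toNat, (x.1.2.2.2.2 + x.2.2).toNat), ?_, ?_⟩
    · rw [mem_idv]
      refine ⟨b1, ?_, ?_⟩
      · show (x.1.2.2.2.1 + x.2.1).toNat < M + D.c
        omega
      · show (x.1.2.2.2.2 + x.2.2).toNat < M + D.c
        omega
    · unfold Dt.fv
      rw [red_ad]
      show _ = pt (ad (D.red x.1.2) (D.tau ((x.1.2.2.2.1 + x.2.1).toNat : ℕ)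
        ((x.1.2.2.2.2 + x.2.2).toNat : ℕ)))
      rw [Int.toNat_of_nonneg (by omega), Int.toNat_of_nonneg (by omega)]

theorem drawing (h : D.Ok) (hf : D.free = true) {k : ℕ} (hp : D.pl k = true) (M m : ℕ) :
    IsDrawing k (D.S M m) (D.G M) where
  mem := by
    intro p q hpq
    obtain ⟨⟨x, hx, hxe⟩, _⟩ := G_adj.1 hpq
    unfold Dt.fe at hxe
    rw [Sym2.eq_iff] at hxe
    obtain ⟨⟨y1, hy1, hy1'⟩, ⟨y2, hy2, hy2'⟩⟩ := end_mem h hx
    unfold Dt.S
    rw [Finset.mem_union]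
    left
    rw [Finset.mem_image]
    rcases hxe with ⟨h1, _⟩ | ⟨_, h2⟩
    · exact ⟨y1, hy1, by rw [← hy1', h1]⟩
    · exact ⟨y2, hy2, by rw [← hy2', h2]⟩
  unit := by
    intro p q hpq
    obtain ⟨⟨x, hx, hxe⟩, _⟩ := G_adj.1 hpq
    have h1 := dsq_pt x.1.1 x.1.2 (D.tau x.2.1 x.2.2) (h.unit _ (mem_idx.1 hx).1)
    unfold Dt.fe at hxe
    rw [Sym2.eq_iff] at hxe
    rcases hxe with ⟨e1, e2⟩ | ⟨e1, e2⟩
    · rw [← e1, ← e2]; exact h1
    · rw [← e1, ← e2]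
      rw [← h1]
      unfold dsq
      ring
  free := by
    intro p q hpq r hr hrs
    obtain ⟨⟨x, hx, hxe⟩, _⟩ := G_adj.1 hpq
    have hrs' : r ∈ openSegment ℝ (pt (ad x.1.1 (D.tau x.2.1 x.2.2)))
        (pt (ad x.1.2 (D.tau x.2.1 x.2.2))) := by
      unfold Dt.fe at hxe
      rw [Sym2.eq_iff] at hxe
      rcases hxe with ⟨e1, e2⟩ | ⟨e1, e2⟩
      · rw [e1, e2]; exact hrs
      · rw [e1, e2, openSegment_symm]; exact hrs
    unfold Dt.S at hr
    rw [Finset.mem_union, Finset.mem_image, Finset.mem_image] at hr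
    rcases hr with ⟨y, hy, rfl⟩ | ⟨j, _, rfl⟩
    · exact not_on h hf (mem_idx.1 hx).1 (mem_idv.1 hy).1 _ _ _ _ hrs'
    · obtain ⟨⟨y1, hy1, hy1'⟩, ⟨y2, hy2, hy2'⟩⟩ := end_mem h hx
      rw [hy1', hy2'] at hrs'
      obtain ⟨a, b, ha, hb, hab, hc⟩ := hrs'
      have h1 := fv_pos h (mem_idv.1 hy1).1
      have h2 := fv_pos h (mem_idv.1 hy2).1
      have h3 := congrArg Prod.snd hc
      simp only [ext, Prod.snd_add, Prod.smul_snd, smul_eq_mul] at h3
      have h4 := mul_pos ha h1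
      have h5 := mul_pos hb h2
      linarith
  planar := by
    intro e he
    rw [edgeSet_eq h] at he
    obtain ⟨x, hx, rfl⟩ := he
    have hxE := (mem_idx.1 hx).1
    have hsub : {e' | e' ∈ (D.G M).edgeSet ∧ Crosses (D.fe x) e'} ⊆
        (fun y : (Z4 × Z4) × ℤ × ℤ => s(pt (ad y.1.1 (D.tau (y.2.1 + x.2.1) (y.2.2 + x.2.2))),
          pt (ad y.1.2 (D.tau (y.2.1 + x.2.1) (y.2.2 + x.2.2))))) ''
        ((D.bad x.1).toFinset : Set ((Z4 × Z4) × ℤ × ℤ)) := by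
      rintro e' ⟨he', hc⟩
      rw [edgeSet_eq h] at he'
      obtain ⟨y, hy, rfl⟩ := he'
      have hyE := (mem_idx.1 hy).1
      obtain ⟨hne, p, q, r, s, z, h1, h2, h3, h4⟩ := hc
      have h3' : z ∈ openSegment ℝ (pt (ad x.1.1 (D.tau x.2.1 x.2.2)))
          (pt (ad x.1.2 (D.tau x.2.1 x.2.2))) := by
        unfold Dt.fe at h1
        rw [Sym2.eq_iff] at h1
        rcases h1 with ⟨e1, e2⟩ | ⟨e1, e2⟩
        · rw [e1, e2]; exact h3
        · rw [e1, e2, openSegment_symm]; exact h3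
      have h4' : z ∈ openSegment ℝ (pt (ad y.1.1 (D.tau y.2.1 y.2.2)))
          (pt (ad y.1.2 (D.tau y.2.1 y.2.2))) := by
        unfold Dt.fe at h2
        rw [Sym2.eq_iff] at h2
        rcases h2 with ⟨e1, e2⟩ | ⟨e1, e2⟩
        · rw [e1, e2]; exact h4
        · rw [e1, e2, openSegment_symm]; exact h4
      rcases crossing h hxE hyE _ _ _ _ h3' h4' with hb | ⟨c1, c2, c3⟩
      · refine ⟨(y.1, (y.2.1 : ℤ) - x.2.1, (y.2.2 : ℤ) - x.2.2), ?_, ?_⟩
        · rw [Finset.mem_coe, List.mem_toFinset]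
          exact hb
        · show s(pt (ad y.1.1 (D.tau ((y.2.1 : ℤ) - x.2.1 + x.2.1) ((y.2.2 : ℤ) - x.2.2 + x.2.2))),
            pt (ad y.1.2 (D.tau ((y.2.1 : ℤ) - x.2.1 + x.2.1) ((y.2.2 : ℤ) - x.2.2 + x.2.2)))) = D.fe y
          rw [sub_add_cancel, sub_add_cancel]
          rfl
      · exfalso
        apply hne
        congr 1
        exact (Prod.ext c1 (Prod.ext (by exact_mod_cast c2) (by exact_mod_cast c3))).symm
    refine (Set.encard_le_encard hsub).trans ?_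
    refine (Set.encard_image_le _ _).trans ?_
    rw [Set.encard_coe_eq_coe_finsetCard]
    have h5 : (D.bad x.1).length ≤ k := by
      unfold Dt.pl at hp
      rw [List.all_eq_true] at hp
      exact of_decide_eq_true (hp x.1 hxE)
    have h6 := List.toFinset_card_le (D.bad x.1)
    exact_mod_cast h6.trans h5

theorem bdd (k n : ℕ) :
    BddAbove {m | ∃ S G, S.card = n ∧ IsDrawing k S G ∧ G.edgeSet.ncard = m} := by
  refine ⟨n * n, ?_⟩
  rintro m ⟨S, G, hS, hG, rfl⟩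
  have hsub : G.edgeSet ⊆ (fun x : (ℝ × ℝ) × (ℝ × ℝ) => s(x.1, x.2)) ''
      ((S ×ˢ S : Finset _) : Set ((ℝ × ℝ) × (ℝ × ℝ))) := by
    intro e
    induction e using Sym2.ind with
    | _ p q =>
      intro he
      rw [SimpleGraph.mem_edgeSet] at he
      refine ⟨(p, q), ?_, rfl⟩
      rw [Finset.mem_coe, Finset.mem_product]
      exact ⟨hG.mem _ _ he, hG.mem _ _ he.symm⟩
  calc G.edgeSet.ncard ≤ _ := Set.ncard_le_ncard hsub ((Finset.finite_toSet _).image _)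
    _ ≤ ((S ×ˢ S : Finset _) : Set ((ℝ × ℝ) × (ℝ × ℝ))).ncard :=
        Set.ncard_image_le (Finset.finite_toSet _)
    _ = n * n := by rw [Set.ncard_coe_finset, Finset.card_product, hS]

theorem u_ge (h : D.Ok) (hf : D.free = true) {k : ℕ} (hp : D.pl k = true) (M n : ℕ)
    (hn : D.V.length * ((M + D.c) * (M + D.c)) ≤ n) : D.E.length * (M * M) ≤ u k n := by
  unfold u
  apply le_csSup (bdd k n)
  refine ⟨D.S M (n - D.V.length * ((M + D.c) * (M + D.c))), D.G M, ?_, drawing h hf hp _ _,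
    ncard_edges h M⟩
  rw [card_S h]
  omega

/-- the asymptotic lower bound -/
theorem asym (h : D.Ok) (hf : D.free = true) {k : ℕ} (hp : D.pl k = true)
    (hV : 0 < D.V.length) (n : ℕ) :
      (D.E.length : ℝ) / D.V.length * n
        - 2 * D.E.length * (D.c + 1) * Real.sqrt (n / D.V.length) ≤ u k n := by
  obtain ⟨v, hv⟩ : ∃ v : ℝ, v = D.V.length := ⟨_, rfl⟩
  obtain ⟨E, hE⟩ : ∃ E : ℝ, E = D.E.length := ⟨_, rfl⟩
  have hv0 : 0 < v := by rw [hv]; exact_mod_cast hV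
  have hE0 : 0 ≤ E := by rw [hE]; positivity
  rw [← hv, ← hE]
  -- x = sqrt (n / v)
  obtain ⟨x, hx⟩ : ∃ x : ℝ, x = Real.sqrt (n / v) := ⟨_, rfl⟩
  rw [← hx]
  have hx0 : 0 ≤ x := by rw [hx]; exact Real.sqrt_nonneg _
  have hxx : x * x = n / v := by rw [hx]; exact Real.mul_self_sqrt (by positivity)
  have hmain : E / v * n = E * (x * x) := by rw [hxx]; ring
  rw [hmain]
  have hc0 : (0 : ℝ) ≤ D.c := Nat.cast_nonneg _
  by_cases hcase : x ≤ D.c + 1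
  · have h1 : E * (x * x) ≤ 2 * E * (D.c + 1) * x := by
      have h2 : x * x ≤ 2 * (D.c + 1) * x := by nlinarith
      nlinarith
    have h3 : (0 : ℝ) ≤ u k n := Nat.cast_nonneg _
    linarith
  · push Not at hcase
    obtain ⟨m, hm⟩ : ∃ m : ℕ, m = ⌊x⌋₊ := ⟨_, rfl⟩
    have hm1 : (m : ℝ) ≤ x := by rw [hm]; exact Nat.floor_le hx0
    have hm2 : x < m + 1 := by rw [hm]; exact Nat.lt_floor_add_one x
    have hmc : D.c ≤ m := by
      have : (D.c : ℝ) < m := by linarith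
      exact_mod_cast this.le
    have h1 := u_ge h hf hp (m - D.c) n (by
      rw [Nat.sub_add_cancel hmc]
      have h2 : v * ((m : ℝ) * m) ≤ n := by
        have h3 : (m : ℝ) * m ≤ x * x := mul_self_le_mul_self (Nat.cast_nonneg _) hm1
        rw [hxx] at h3
        rw [le_div_iff₀ hv0] at h3
        linarith
      rw [hv] at h2
      exact_mod_cast h2)
    have h2 : E * (((m : ℝ) - D.c) * (m - D.c)) ≤ u k n := by
      rw [hE]
      have := (Nat.cast_le (α := ℝ)).2 h1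
      push_cast [Nat.cast_sub hmc] at this
      exact this
    have h3 : (x - 1 - D.c) * (x - 1 - D.c) ≤ ((m : ℝ) - D.c) * (m - D.c) := by
      apply mul_self_le_mul_self <;> linarith
    have h4 : x * x - 2 * (D.c + 1) * x ≤ (x - 1 - D.c) * (x - 1 - D.c) := by nlinarith
    have h5 : E * (x * x - 2 * (D.c + 1) * x) ≤ u k n :=
      (mul_le_mul_of_nonneg_left (h4.trans h3) hE0).trans h2
    linarith

end Pool.Agent.UDL
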