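import Pool.Agent.UDL.Chk

/-!
# The crossing test in parts
-/

set_option autoImplicit false

namespace Pool.Agent.UDL

/-- the crossing test for the edges in `l` -/
def Dt.plL (D : Dt) (k : ℕ) (l : List (Z4 × Z4)) : Bool :=
  l.all fun e => decide ((D.bad e).length ≤ k)

theorem pl_app {D : Dt} {k : ℕ} {l l' : List (Z4 × Z4)} (h1 : D.plL k l = true)
    (h2 : D.plL k l' = true) : D.plL k (l ++ l') = true := by
  unfold Dt.plL at h1 h2 ⊢
  rw [List.all_append, h1, h2]
  rfl

theorem pl_of {D : Dt} {k : ℕ} {l : List (Z4 × Z4)} (h : D.plL k l = true) (e : D.E = l) :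
    D.pl k = true := by
  unfold Dt.plL at h
  unfold Dt.pl
  rw [e]
  exact h

end Pool.Agent.UDL
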